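import Pool.Agent.Helper90.TS.Stmts

/-!
# MP_79eb7e_lc: SYMM (symmetry of independence over saturated sets)
-/

set_option autoImplicit false

namespace Pool.Agent.Helper90.TS

section

variable {V G : Type} [Group G] [MulAction G V]

/-- the sets of the construction -/
noncomputable def symm_S {κ ι : Type} (M : Set V) (fb : Set V → κ → V) (fc : Set V → ι → V) :
    ℕ → Set V
  | 0 => M
  | n + 1 => symm_S M fb fc n ∪ Set.range (fb (symm_S M fb fc n)) ∪
      Set.range (fc (symm_S M fb fc n))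

theorem symm_S_countable {κ ι : Type} [Finite κ] [Finite ι] (M : Set V) (hM : M.Countable)
    (fb : Set V → κ → V) (fc : Set V → ι → V) (n : ℕ) : (symm_S M fb fc n).Countable := by
  induction n with
  | zero => exact hM
  | succ n ih =>
    exact (ih.union (Set.finite_range _).countable).union (Set.finite_range _).countable

theorem symm_S_mono {κ ι : Type} (M : Set V)
    (fb : Set V → κ → V) (fc : Set V → ι → V) : Monotone (symm_S M fb fc) := by
  refine monotone_nat_of_le_succ fun n => ?_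
  intro x hx
  exact Or.inl (Or.inl hx)

theorem symm_S_b {κ ι : Type} (M : Set V)
    (fb : Set V → κ → V) (fc : Set V → ι → V) {j i : ℕ} (h : j < i) :
    Set.range (fb (symm_S M fb fc j)) ⊆ symm_S M fb fc i := by
  refine Set.Subset.trans ?_ (symm_S_mono M fb fc h)
  intro x hx
  exact Or.inl (Or.inr hx)

theorem symm_S_c {κ ι : Type} (M : Set V)
    (fb : Set V → κ → V) (fc : Set V → ι → V) {j i : ℕ} (h : j < i) :
    Set.range (fc (symm_S M fb fc j)) ⊆ symm_S M fb fc i := by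
  refine Set.Subset.trans ?_ (symm_S_mono M fb fc h)
  intro x hx
  exact Or.inr hx

end

theorem st_SYMM (hDGM : ST_DGM) (hDEF : ST_DEF) (hFSU2 : ST_FSU2) (hUNI : ST_UNI)
    (hEXT : ST_EXT) (hRKB : ST_RKB) (hRBAS : ST_RBAS) : ST_SYMM := by
  intro V G _ _ X M hM κ ι _ _ b c h
  by_contra hne
  have hMc : M.Countable := hM.1
  obtain ⟨rc1, rc2, rc3, rc4, rc5, rc6⟩ := hRKB V G X ι c
  obtain ⟨mono, down, hsm, _, _⟩ := hRBAS V G X ι
  have hlt : X.rk (M ∪ Set.range b) c < X.rk M c :=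
    lt_of_le_of_ne (rc4 _ _ Set.subset_union_left) hne
  obtain ⟨D, hD, hbD, hD1⟩ := hDGM V G X M hM κ b
  obtain ⟨E, hE, hcE, hE1⟩ := hDGM V G X M hM ι c
  obtain ⟨H, hH, hcH, hHr⟩ := rc1 (M ∪ Set.range b)
  have hHβ : ¬ X.Rge (X.rk M c) H := by
    intro h1
    exact absurd ((hHr _).1 h1) (not_le.2 hlt)
  obtain ⟨K0, hK0, hHK⟩ := hFSU2 V G X M hMc κ ι b H hH
  -- the set of `x` with large fibre
  have hZdf := hDEF V G X κ ι (X.rk M c) E K0 hE.1 hE1.2.1 hK0.1
  have hZ : X.Ov M {z : κ → V | X.Rge (X.rk M c) (E ∩ {x | Sum.elim z x ∈ K0})} := by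
    refine ⟨hZdf, ?_⟩
    intro g hg z hz
    have h1 : X.Rge (X.rk M c) (E ∩ {x | Sum.elim z x ∈ K0}) := hz
    change X.Rge (X.rk M c) (E ∩ {x | Sum.elim (g • z) x ∈ K0})
    rw [← hsm _ _ g]
    have e : {x : ι → V | g • x ∈ E ∩ {x | Sum.elim (g • z) x ∈ K0}} =
        E ∩ {x | Sum.elim z x ∈ K0} := by
      ext x
      constructor
      · rintro ⟨h2, h3⟩
        refine ⟨(inv_iff hE.2 hg x).1 h2, ?_⟩
        have h4 : Sum.elim (g • z) (g • x) ∈ K0 := h3
        rw [← smul_elim] at h4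
        exact (inv_iff hK0.2 hg _).1 h4
      · rintro ⟨h2, h3⟩
        refine ⟨(inv_iff hE.2 hg x).2 h2, ?_⟩
        change Sum.elim (g • z) (g • x) ∈ K0
        rw [← smul_elim]
        exact (inv_iff hK0.2 hg _).2 h3
    rw [e]
    exact h1
  set Z : Set (κ → V) := {z : κ → V | X.Rge (X.rk M c) (E ∩ {x | Sum.elim z x ∈ K0})} with hZdef
  set K : Set (κ ⊕ ι → V) := K0 ∩ {x : κ ⊕ ι → V | x ∘ Sum.inl ∈ D \ Z ∧ x ∘ Sum.inr ∈ E}
    with hKdef
  have hK : X.Ov M K := ov_inter hK0 (ov_prod (ov_diff hD hZ) hE)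
  have hbZ : b ∉ Z := by
    intro h1
    have h2 : X.Rge (X.rk M c) (E ∩ {x | Sum.elim b x ∈ K0}) := h1
    rw [← hHK] at h2
    exact hHβ (mono _ _ _ hH.1 Set.inter_subset_right h2)
  have hbcK : Sum.elim b c ∈ K := by
    refine ⟨?_, ?_, ?_⟩
    · have : c ∈ {x | Sum.elim b x ∈ K0} := by
        rw [← hHK]
        exact hcH
      exact this
    · rw [Sum.elim_comp_inl]
      exact ⟨hbD, hbZ⟩
    · rw [Sum.elim_comp_inr]
      exact hcE
  have hKx : ∀ x : κ → V, ¬ X.Rge (X.rk M c) {y | Sum.elim x y ∈ K} := by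
    intro x h1
    have hne' : ({y : ι → V | Sum.elim x y ∈ K}).Nonempty := by
      rw [rge_iff] at h1
      exact h1.2.1
    obtain ⟨y, hy⟩ := hne'
    have hx : x ∈ D \ Z := by
      have := hy.2.1
      rwa [Sum.elim_comp_inl] at this
    have h2 : {y | Sum.elim x y ∈ K} ⊆ E ∩ {y | Sum.elim x y ∈ K0} := by
      intro y hy
      refine ⟨?_, hy.1⟩
      have := hy.2.2
      rwa [Sum.elim_comp_inr] at this
    refine hx.2 ?_
    refine mono _ _ _ ?_ h2 h1
    have h3 : X.Ov (M ∪ Set.range x) (E ∩ {y | Sum.elim x y ∈ K0}) :=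
      ov_inter (ov_mono X Set.subset_union_left hE) (ov_sec hK0 x)
    exact h3.1
  -- construction
  have hstep : ∀ S : Set V, ∃ (b' : κ → V) (c' : ι → V), S.Countable → M ⊆ S →
      (Eqv G M b b' ∧ X.rk S b' = X.rk M b ∧ Eqv G M c c' ∧
        X.rk (S ∪ Set.range b') c' = X.rk M c) := by
    intro S
    by_cases hS : S.Countable
    · by_cases hMS : M ⊆ S
      · obtain ⟨b', h1, h2⟩ := hEXT V G X M S hS hMS κ b
        obtain ⟨c', h3, h4⟩ := hEXT V G X M (S ∪ Set.range b')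
          (hS.union (Set.finite_range _).countable)
          (hMS.trans Set.subset_union_left) ι c
        exact ⟨b', c', fun _ _ => ⟨h1, h2, h3, h4⟩⟩
      · exact ⟨b, c, fun _ h1 => absurd h1 hMS⟩
    · exact ⟨b, c, fun h1 => absurd h1 hS⟩
  choose fb fc hf using hstep
  let S := symm_S M fb fc
  have hSc : ∀ i, (S i).Countable := symm_S_countable M hMc fb fc
  have hSM : ∀ i, M ⊆ S i := fun i => symm_S_mono M fb fc (Nat.zero_le i)
  have hF := fun i => hf (S i) (hSc i) (hSM i)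
  have key1 : ∀ j i, j ≤ i → Sum.elim (fb (S j)) (fc (S i)) ∉ K := by
    intro j i hji hmem
    obtain ⟨_, _, _, h4⟩ := hF i
    have hov : X.Ov (S i ∪ Set.range (fb (S i))) {y | Sum.elim (fb (S j)) y ∈ K} := by
      refine ov_mono X ?_ (ov_sec hK (fb (S j)))
      refine Set.union_subset ((hSM i).trans Set.subset_union_left) ?_
      rcases Nat.lt_or_ge j i with h5 | h5
      · exact (symm_S_b M fb fc h5).trans Set.subset_union_left
      · have : j = i := le_antisymm hji h5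
        subst this
        exact Set.subset_union_right
    obtain ⟨_, _, q3, _, _, _⟩ := hRKB V G X ι (fc (S i))
    have := q3 _ _ hov hmem
    rw [h4] at this
    exact hKx _ this
  have key2 : ∀ j i, j < i → Sum.elim (fb (S i)) (fc (S j)) ∈ K := by
    intro j i hji
    obtain ⟨h1, h2, _, _⟩ := hF i
    obtain ⟨_, _, h3, _⟩ := hF j
    obtain ⟨g, hg, hgc⟩ := h3
    obtain ⟨_, _, _, p4, p5, p6⟩ := hRKB V G X κ b
    obtain ⟨_, _, _, r4, r5, r6⟩ := hRKB V G X κ (fb (S i))
    have e1 : X.rk (M ∪ Set.range (fc (S j))) (g • b) = X.rk M b := by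
      have h5 := p5 (M ∪ Set.range c) g
      rw [tr_union, tr_fx hg, tr_range, hgc] at h5
      rw [h5, h]
    have e2 : X.rk (M ∪ Set.range (fc (S j))) (fb (S i)) = X.rk M b := by
      apply le_antisymm
      · rw [← p6 _ _ h1]
        exact r4 _ _ Set.subset_union_left
      · rw [← h2]
        exact r4 _ _ (Set.union_subset (hSM i) (symm_S_c M fb fc hji))
    obtain ⟨k, hk, hkb⟩ := hUNI V G X M (M ∪ Set.range (fc (S j)))
      (hMc.union (Set.finite_range _).countable) Set.subset_union_left κ b (g • b) (fb (S i))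
      (hDGM V G X M hM κ b) ⟨g, hg, rfl⟩ h1 e1 e2
    obtain ⟨hk1, hk2⟩ := fx_union.1 hk
    have hkc := fx_range.1 hk2
    have h6 := hK.2 k hk1 _ (hK.2 g hg _ hbcK)
    rw [smul_elim, smul_elim, hgc, hkc, hkb] at h6
    exact h6
  refine X.stab ι κ _ (ov_swap hK).1 ⟨fun i => fc (S i), fun i => fb (S i), ?_⟩
  intro i j
  change Sum.elim (Sum.elim (fc (S i)) (fb (S j)) ∘ Sum.inr)
    (Sum.elim (fc (S i)) (fb (S j)) ∘ Sum.inl) ∈ K ↔ i < j
  rw [Sum.elim_comp_inl, Sum.elim_comp_inr]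
  constructor
  · intro h1
    by_contra h2
    exact key1 j i (not_lt.1 h2) h1
  · exact key2 i j

end Pool.Agent.Helper90.TS
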