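import Pool.Agent.Helper90.TS.CStmts

/-!
# MP_79eb7e_lc: UOST (omega-stability of the context of `dcl(Φ(C))`)
-/

set_option autoImplicit false

namespace Pool.Agent.Helper90.TS

open FirstOrder Language

/-- points are definable from themselves -/
theorem uost_point {L : FirstOrder.Language.{0, 0}} {C : Type} [L.Structure C] (e : C) :
    (Set.univ : Set C).Definable L ({fun _ => e} : Set (Unit → C)) := by
  rw [Set.definable_iff_exists_formula_sum]
  refine ⟨Term.equal (Term.var (Sum.inl ⟨e, Set.mem_univ e⟩)) (Term.var (Sum.inr ())), ?_⟩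
  ext v
  constructor
  · rintro rfl
    simp [Formula.Realize, Term.equal]
  · intro h
    have h1 : e = v () := by
      simpa [Formula.Realize, Term.equal] using h
    change v = fun _ => e
    ext i
    exact h1.symm

/-- the definable closure of a finite tuple is countable -/
theorem uost_dcl (hCINVD : ST_CINVD) (hCCNT : ST_CCNT) (L : FirstOrder.Language.{0, 0}) (C : Type)
    [L.Structure C] (S : ℕ → Set C) (hM : Monster L C S) {m : ℕ} (u : Fin m → C) :
    {e : C | ∀ g : AutG L C, g • u = u → g • e = e}.Countable := by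
  have hc : (Set.range u).Countable := (Set.finite_range u).countable
  have h1 := hCCNT L C Unit (Set.range u) hM.lang hc
  refine Set.MapsTo.countable_of_injOn (f := fun e : C => ({fun _ => e} : Set (Unit → C)))
    (t := {D : Set (Unit → C) | (Set.range u).Definable L D}) ?_ ?_ h1
  · intro e he
    refine hCINVD L C S hM Unit (Set.range u) hc _ (uost_point e) ?_ ?_
    · obtain ⟨N, hN⟩ := hM.cover e
      refine ⟨N, ?_⟩
      rintro x rfl i
      exact hN
    · rintro g hg x rfl
      have h2 : g • u = u := fx_range.1 hg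
      have h3 : g • e = e := he g h2
      change (g • fun _ : Unit => e) = fun _ => e
      ext i
      exact h3
  · intro e _ e' _ h
    have h2 : (fun _ : Unit => e) = fun _ => e' := Set.singleton_injective h
    exact congrFun h2 ()

/-- a tuple of elements of `dcl(Φ(C))` is in the definable closure of a tuple of `Φ(C)` -/
theorem uost_collect {L : FirstOrder.Language.{0, 0}} {C : Type} [L.Structure C] (T : Dt L C)
    {n : ℕ} (x : Fin n → T.V) : ∃ (m : ℕ) (u : Fin m → C), (∀ i, u i ∈ T.U0) ∧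
      ∀ g : AutG L C, g • u = u → ∀ i, g • (x i : C) = x i := by
  have h : ∀ i, ∃ (m : ℕ) (u : Fin m → C), (∀ i, u i ∈ T.U0) ∧
    ∀ g : AutG L C, g • u = u → g • (x i : C) = x i := fun i => (x i).2
  choose m u h1 h2 using h
  let e := (finSigmaFinEquiv (n := m)).symm
  refine ⟨∑ i, m i, fun k => u (e k).1 (e k).2, fun k => h1 _ _, ?_⟩
  intro g hg i
  apply h2 i g
  ext j
  have h3 := congrFun hg (e.symm ⟨i, j⟩)
  have h4 : g • u (e (e.symm ⟨i, j⟩)).1 (e (e.symm ⟨i, j⟩)).2 =
    u (e (e.symm ⟨i, j⟩)).1 (e (e.symm ⟨i, j⟩)).2 := h3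
  rw [Equiv.apply_symm_apply] at h4
  exact h4

theorem st_UOST (hCTYPE : ST_CTYPE) (hCINVD : ST_CINVD) (hCCNT : ST_CCNT) : ST_UOST := by
  intro L C _ T A hA n
  -- supports of the elements of `A`
  have h : ∀ a : T.V, ∃ (m : ℕ) (u : Fin m → C), (∀ i, u i ∈ T.U0) ∧
    ∀ g : AutG L C, g • u = u → g • (a : C) = a := fun a => a.2
  choose ma ua h1 h2 using h
  let A' : Set C := ⋃ a ∈ A, Set.range (ua a)
  have hA'c : A'.Countable := hA.biUnion fun a _ => (Set.finite_range _).countable
  have hA'U : A' ⊆ T.U0 := by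
    intro y hy
    obtain ⟨a, ha⟩ := Set.mem_iUnion.1 hy
    obtain ⟨_, ⟨i, rfl⟩⟩ := Set.mem_iUnion.1 ha
    exact h1 a i
  have hfix : ∀ g ∈ Fx (AutG L C) A', g ∈ Fx (AutG L C) A := by
    intro g hg a ha
    apply Subtype.ext
    change g • (a : C) = a
    apply h2 a g
    ext i
    refine hg _ ?_
    exact Set.mem_iUnion.2 ⟨a, Set.mem_iUnion.2 ⟨ha, i, rfl⟩⟩
  -- representatives of the types
  have hom := T.om A' hA'U hA'c
  let P : (m : ℕ) → Set (Set (Set (Fin m → C))) := fun m =>
    {p | ∃ u : Fin m → C, (∀ i, u i ∈ (⋃ i, T.Ph i)) ∧ p = tp L A' u}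
  have hP : ∀ m, Countable (P m) := fun m => (hom m).to_subtype
  have hrep : ∀ (m : ℕ) (p : P m), ∃ w : Fin m → C, tp L A' w = p.1 := by
    intro m p
    obtain ⟨u, _, hu⟩ := p.2
    exact ⟨u, hu.symm⟩
  choose rep hrep using hrep
  let R : Set (Fin n → T.V) := ⋃ (m : ℕ), ⋃ (p : P m), {y : Fin n → T.V | ∀ i,
    (y i : C) ∈ {e : C | ∀ g : AutG L C, g • rep m p = rep m p → g • e = e}}
  refine ⟨R, ?_, ?_⟩
  · refine Set.countable_iUnion fun m => Set.countable_iUnion fun p => ?_
    have h3 := uost_dcl hCINVD hCCNT L C T.S T.hM (rep m p)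
    have h4 : {a : T.V | (a : C) ∈ {e : C | ∀ g : AutG L C, g • rep m p = rep m p →
        g • e = e}}.Countable :=
      h3.preimage_of_injOn (Subtype.val_injective.injOn)
    have h5 := Set.countable_univ_pi (fun _ : Fin n => h4)
    refine h5.mono ?_
    intro y hy i _
    exact hy i
  · intro x
    obtain ⟨m, u, hu, hfx⟩ := uost_collect T x
    have hp : tp L A' u ∈ P m := ⟨u, hu, rfl⟩
    have h3 : tp L A' (rep m ⟨tp L A' u, hp⟩) = tp L A' u := hrep m ⟨tp L A' u, hp⟩
    set w := rep m ⟨tp L A' u, hp⟩ with hw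
    obtain ⟨g, hg, hgw⟩ := hCTYPE L C T.S T.hM (Fin m) A' hA'c w u (by
      intro D hD hwD
      have h4 : D ∈ tp L A' w := ⟨hD, hwD⟩
      rw [h3] at h4
      exact h4.2)
    refine ⟨g⁻¹ • x, ?_, g, hfix g hg, by simp⟩
    refine Set.mem_iUnion.2 ⟨m, Set.mem_iUnion.2 ⟨⟨tp L A' u, hp⟩, ?_⟩⟩
    intro i k hk
    have hk' : k • w = w := hk
    have h4 : (g * k * g⁻¹) • u = u := by
      rw [← hgw, mul_smul, mul_smul, inv_smul_smul, hk']
    have h5 := hfx _ h4 i
    rw [mul_smul, mul_smul] at h5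
    change k • (g⁻¹ • (x i : C)) = g⁻¹ • (x i : C)
    rw [eq_inv_smul_iff]
    exact h5

end Pool.Agent.Helper90.TS
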